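import Mathlib

/-!
# MP_aa6101: a Hausdorff non-Lusin space `X` with `Q_p(X)` Fréchet–Urysohn
-/

namespace Pool.Agent.Results.MP_aa6101_gt.NotLusin

open Set Topology Filter TopologicalSpace

/-- `f` is quasicontinuous. -/
def Quasicontinuous {X : Type} [TopologicalSpace X] (f : X → ℝ) : Prop :=
  ∀ x, ∀ U : Set X, IsOpen U → x ∈ U → ∀ V : Set ℝ, IsOpen V → f x ∈ V →
    ∃ W : Set X, IsOpen W ∧ W.Nonempty ∧ W ⊆ U ∧ f '' W ⊆ V

/-- `Q_p(X, ℝ)`: the quasicontinuous functions with the topology of pointwise convergence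
(the subspace topology from `X → ℝ`). -/
abbrev Qp (X : Type) [TopologicalSpace X] : Type := {f : X → ℝ // Quasicontinuous f}

/-- Lusin spaces in the sense of Kunen (for Hausdorff `X`). -/
def IsLusin (X : Type) [TopologicalSpace X] : Prop :=
  (∀ E : Set X, IsNowhereDense E → E.Countable) ∧ {x : X | IsOpen ({x} : Set X)}.Countable ∧
    Uncountable X

/-- the Cantor space -/
abbrev Cantor : Type := ℕ → Bool

/-- the countable set of nonempty clopen subsets of the Cantor space -/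
abbrev NN : Type := {C : Clopens Cantor // (C : Set Cantor).Nonempty}

instance : Countable NN := by
  haveI : Countable (Clopens Cantor) :=
    (TopologicalSpace.Clopens.countable_iff_secondCountable (X := Cantor)).2 inferInstance
  infer_instance

/-- basic sets -/
def bas (P Q : Finset Cantor) : Set NN := {C | (∀ x ∈ P, x ∈ C.1) ∧ ∀ x ∈ Q, x ∉ C.1}

theorem cantor_infinite (U : Set Cantor) (hU : IsOpen U) (hne : U.Nonempty) : U.Infinite := by
  intro hfin
  obtain ⟨x, hx⟩ := hne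
  obtain ⟨I, u, hu1, hu2⟩ := isOpen_pi_iff.1 hU x hx
  classical
  have h1 : ∀ n : ℕ, n ∉ I → (Function.update x n (!x n)) ∈ U := by
    intro n hn
    apply hu2
    intro a ha
    have : a ≠ n := fun h => hn (h ▸ ha)
    rw [Function.update_of_ne this]
    exact (hu1 a ha).2
  have h2 : {n : ℕ | n ∉ I}.Infinite := I.finite_toSet.infinite_compl
  have h3 : InjOn (fun n => Function.update x n (!x n)) {n : ℕ | n ∉ I} := by
    intro n _ m _ hnm
    by_contra hne
    have := congrFun hnm n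
    simp only [Function.update_self] at this
    rw [Function.update_of_ne hne] at this
    revert this
    cases x n <;> simp
  exact (h2.image h3) (hfin.subset (by
    rintro _ ⟨n, hn, rfl⟩
    exact h1 n hn))

theorem bas_nonempty {P Q : Finset Cantor} (h : Disjoint P Q) : (bas P Q).Nonempty := by
  classical
  -- make P nonempty
  have key : ∀ P : Finset Cantor, P.Nonempty → Disjoint P Q → (bas P Q).Nonempty := by
    intro P hne hd
    have hQ : IsOpen ((Q : Set Cantor)ᶜ) := Q.finite_toSet.isClosed.isOpen_compl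
    have h1 : ∀ x ∈ P, ∃ C : Clopens Cantor, x ∈ C ∧ (C : Set Cantor) ⊆ (Q : Set Cantor)ᶜ := by
      intro x hx
      obtain ⟨V, hV, hxV, hVQ⟩ := compact_exists_isClopen_in_isOpen hQ (x := x) (by
        intro hxQ
        exact (Finset.disjoint_left.1 hd) hx hxQ)
      exact ⟨⟨V, hV⟩, hxV, hVQ⟩
    choose! C hC1 hC2 using h1
    have h2 : ∀ x, x ∈ P.sup C ↔ ∃ y ∈ P, x ∈ C y := by
      intro x
      have : ((P.sup C : Clopens Cantor) : Set Cantor) = ⋃ y ∈ P, (C y : Set Cantor) := by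
        simp
      rw [← SetLike.mem_coe, this]
      simp
    refine ⟨⟨P.sup C, ?_⟩, ?_, ?_⟩
    · obtain ⟨x, hx⟩ := hne
      exact ⟨x, (h2 x).2 ⟨x, hx, hC1 x hx⟩⟩
    · intro x hx
      exact (h2 x).2 ⟨x, hx, hC1 x hx⟩
    · intro x hx hxC
      obtain ⟨y, hy, hxy⟩ := (h2 x).1 hxC
      exact hC2 y hy hxy hx
  rcases P.eq_empty_or_nonempty with rfl | hne
  · obtain ⟨z, hz⟩ := ((cantor_infinite univ isOpen_univ univ_nonempty).sdiff
      Q.finite_toSet).nonempty
    obtain ⟨C, hC1, hC2⟩ := key {z} (Finset.singleton_nonempty z) (by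
      rw [Finset.disjoint_singleton_left]
      exact hz.2)
    exact ⟨C, by simp, hC2⟩
  · exact key P hne h

theorem bas_inter [DecidableEq Cantor] (P Q P' Q' : Finset Cantor) :
    bas P Q ∩ bas P' Q' = bas (P ∪ P') (Q ∪ Q') := by
  ext C
  simp only [bas, mem_inter_iff, Set.mem_ofPred_eq, Finset.mem_union]
  constructor
  · rintro ⟨⟨h1, h2⟩, h3, h4⟩
    exact ⟨fun x hx => hx.elim (h1 x) (h3 x), fun x hx => hx.elim (h2 x) (h4 x)⟩
  · rintro ⟨h1, h2⟩
    exact ⟨⟨fun x hx => h1 x (Or.inl hx), fun x hx => h2 x (Or.inl hx)⟩,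
      fun x hx => h1 x (Or.inr hx), fun x hx => h2 x (Or.inr hx)⟩

/-- `G` is a union of basic sets with parameters in `A` -/
def OA (A : Set Cantor) (G : Set NN) : Prop :=
  ∀ C ∈ G, ∃ P Q : Finset Cantor, ↑P ⊆ A ∧ ↑Q ⊆ A ∧ C ∈ bas P Q ∧ bas P Q ⊆ G

theorem OA.mono {A A' : Set Cantor} (h : A ⊆ A') {G : Set NN} (hG : OA A G) : OA A' G := by
  intro C hC
  obtain ⟨P, Q, h1, h2, h3, h4⟩ := hG C hC
  exact ⟨P, Q, h1.trans h, h2.trans h, h3, h4⟩

theorem OA.inter {A : Set Cantor} {G G' : Set NN} (hG : OA A G) (hG' : OA A G') :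
    OA A (G ∩ G') := by
  classical
  rintro C ⟨hC, hC'⟩
  obtain ⟨P, Q, h1, h2, h3, h4⟩ := hG C hC
  obtain ⟨P', Q', h1', h2', h3', h4'⟩ := hG' C hC'
  refine ⟨P ∪ P', Q ∪ Q', ?_, ?_, ?_, ?_⟩
  · rw [Finset.coe_union]
    exact union_subset h1 h1'
  · rw [Finset.coe_union]
    exact union_subset h2 h2'
  · rw [← bas_inter]
    exact ⟨h3, h3'⟩
  · rw [← bas_inter]
    exact inter_subset_inter h4 h4'

theorem OA.bas {A : Set Cantor} {P Q : Finset Cantor} (hP : ↑P ⊆ A) (hQ : ↑Q ⊆ A) :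
    OA A (bas P Q) := fun _ hC => ⟨P, Q, hP, hQ, hC, Subset.rfl⟩

theorem OA.univ_set {A : Set Cantor} : OA A univ :=
  fun _ _ => ⟨∅, ∅, by simp, by simp, by simp [NotLusin.bas], subset_univ _⟩

theorem OA.exists_countable {G : Set NN} (hG : OA univ G) : ∃ A : Set Cantor, A.Countable ∧
    OA A G := by
  choose! P Q h1 h2 h3 h4 using hG
  refine ⟨⋃ C : NN, (↑(P C) ∪ ↑(Q C)), countable_iUnion fun C =>
    (P C).countable_toSet.union (Q C).countable_toSet, fun C hC => ⟨P C, Q C, ?_, ?_, h3 C hC,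
      h4 C hC⟩⟩
  · exact subset_union_left.trans (subset_iUnion (fun C => ((↑(P C) ∪ ↑(Q C) : Set Cantor))) C)
  · exact subset_union_right.trans (subset_iUnion (fun C => ((↑(P C) ∪ ↑(Q C) : Set Cantor))) C)

/-- maximal open filters -/
structure MaxF (F : Set (Set NN)) : Prop where
  isOpen : ∀ U ∈ F, OA univ U
  nonempty : ∀ U ∈ F, U.Nonempty
  inter : ∀ U ∈ F, ∀ V ∈ F, U ∩ V ∈ F
  max : ∀ G, OA univ G → (∀ U ∈ F, (G ∩ U).Nonempty) → G ∈ F

theorem MaxF.mono {F : Set (Set NN)} (h : MaxF F) {U V : Set NN} (hU : U ∈ F) (hUV : U ⊆ V)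
    (hV : OA univ V) : V ∈ F := by
  apply h.max V hV
  intro W hW
  exact (h.nonempty _ (h.inter _ hU _ hW)).mono (inter_subset_inter_left _ hUV)

theorem exists_max (F₀ : Set (Set NN)) (h1 : ∀ U ∈ F₀, OA univ U) (h2 : ∀ U ∈ F₀, U.Nonempty)
    (h3 : ∀ U ∈ F₀, ∀ V ∈ F₀, U ∩ V ∈ F₀) : ∃ F, F₀ ⊆ F ∧ MaxF F := by
  obtain ⟨F, hF₀, hF⟩ := zorn_subset_nonempty
    {F : Set (Set NN) | (∀ U ∈ F, OA univ U ∧ U.Nonempty) ∧ ∀ U ∈ F, ∀ V ∈ F, U ∩ V ∈ F} (by
    rintro c hc hchain ⟨B₀, hB₀⟩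
    refine ⟨⋃₀ c, ⟨?_, ?_⟩, fun s hs => subset_sUnion_of_mem hs⟩
    · rintro U ⟨F, hF, hU⟩
      exact (hc hF).1 U hU
    · rintro U ⟨F, hF, hU⟩ V ⟨F', hF', hV⟩
      rcases hchain.total hF hF' with h | h
      · exact ⟨F', hF', (hc hF').2 _ (h hU) _ hV⟩
      · exact ⟨F, hF, (hc hF).2 _ hU _ (h hV)⟩) F₀
    ⟨fun U hU => ⟨h1 U hU, h2 U hU⟩, h3⟩
  refine ⟨F, hF₀, fun U hU => (hF.prop.1 U hU).1, fun U hU => (hF.prop.1 U hU).2, hF.prop.2, ?_⟩
  intro G hG hGF
  by_cases hFe : F.Nonempty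
  · have h4 : F ∪ {W | ∃ U ∈ F, W = G ∩ U} ∪ {G} ⊆ F := by
      apply hF.le_of_ge _ (subset_union_left.trans subset_union_left)
      constructor
      · rintro W ((hW | ⟨U, hU, rfl⟩) | hW)
        · exact hF.prop.1 W hW
        · exact ⟨hG.inter (hF.prop.1 U hU).1, hGF U hU⟩
        · rw [mem_singleton_iff] at hW
          rw [hW]
          obtain ⟨U, hU⟩ := hFe
          exact ⟨hG, (hGF U hU).mono inter_subset_left⟩
      · rintro W ((hW | ⟨U, hU, rfl⟩) | hW) W' ((hW' | ⟨U', hU', rfl⟩) | hW')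
        · exact Or.inl (Or.inl (hF.prop.2 _ hW _ hW'))
        · refine Or.inl (Or.inr ⟨W ∩ U', hF.prop.2 _ hW _ hU', ?_⟩)
          rw [inter_left_comm]
        · rw [mem_singleton_iff] at hW'
          rw [hW']
          exact Or.inl (Or.inr ⟨W, hW, inter_comm _ _⟩)
        · refine Or.inl (Or.inr ⟨U ∩ W', hF.prop.2 _ hU _ hW', ?_⟩)
          rw [inter_assoc]
        · refine Or.inl (Or.inr ⟨U ∩ U', hF.prop.2 _ hU _ hU', ?_⟩)
          ext x
          simp only [mem_inter_iff]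
          tauto
        · rw [mem_singleton_iff] at hW'
          rw [hW']
          refine Or.inl (Or.inr ⟨U, hU, ?_⟩)
          ext x
          simp only [mem_inter_iff]
          tauto
        · rw [mem_singleton_iff] at hW
          rw [hW]
          exact Or.inl (Or.inr ⟨W', hW', rfl⟩)
        · rw [mem_singleton_iff] at hW
          rw [hW]
          refine Or.inl (Or.inr ⟨U', hU', ?_⟩)
          ext x
          simp only [mem_inter_iff]
          tauto
        · rw [mem_singleton_iff] at hW hW'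
          rw [hW, hW', inter_self]
          exact Or.inr rfl
    exact h4 (Or.inr rfl)
  · rw [not_nonempty_iff_eq_empty] at hFe
    exfalso
    have h5 : ({univ} : Set (Set NN)) ⊆ F := by
      apply hF.le_of_ge
      · constructor
        · rintro W hW
          rw [mem_singleton_iff] at hW
          rw [hW]
          obtain ⟨C, _⟩ := bas_nonempty (P := ∅) (Q := ∅) (Finset.disjoint_empty_left _)
          exact ⟨OA.univ_set, ⟨C, mem_univ _⟩⟩
        · rintro W hW W' hW'
          rw [mem_singleton_iff] at hW hW'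
          rw [hW, hW', inter_self]
          rfl
      · rw [hFe]
        exact empty_subset _
    have h6 := h5 rfl
    rw [hFe] at h6
    exact h6

theorem exists_FF : ∃ F : Set (Set NN), {U | ∃ Q : Finset Cantor, U = bas ∅ Q} ⊆ F ∧ MaxF F := by
  classical
  apply exists_max
  · rintro _ ⟨Q, rfl⟩
    exact OA.bas (subset_univ _) (subset_univ _)
  · rintro _ ⟨Q, rfl⟩
    exact bas_nonempty (Finset.disjoint_empty_left _)
  · rintro _ ⟨Q, rfl⟩ _ ⟨Q', rfl⟩
    rw [bas_inter]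
    exact ⟨Q ∪ Q', by rw [Finset.empty_union]⟩

/-- the maximal open filter at infinity -/
noncomputable def FF : Set (Set NN) := exists_FF.choose

theorem FF_max : MaxF FF := exists_FF.choose_spec.2

theorem bas_mem_FF (Q : Finset Cantor) : bas ∅ Q ∈ FF := exists_FF.choose_spec.1 ⟨Q, rfl⟩

theorem exists_Fa (α : Cantor) : ∃ F : Set (Set NN),
    {W | ∃ U ∈ FF, OA {α}ᶜ U ∧ W = U ∩ bas {α} ∅} ⊆ F ∧ MaxF F := by
  classical
  apply exists_max
  · rintro _ ⟨U, hU, hUα, rfl⟩
    exact (FF_max.isOpen U hU).inter (OA.bas (subset_univ _) (subset_univ _))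
  · rintro _ ⟨U, hU, hUα, rfl⟩
    obtain ⟨C, hC⟩ := FF_max.nonempty U hU
    obtain ⟨P, Q, h1, h2, h3, h4⟩ := hUα C hC
    have hPQ : Disjoint (P ∪ {α}) Q := by
      rw [Finset.disjoint_union_left]
      refine ⟨?_, ?_⟩
      · rw [Finset.disjoint_left]
        intro x hxP hxQ
        exact h3.2 x hxQ (h3.1 x hxP)
      · rw [Finset.disjoint_singleton_left]
        intro h
        exact h2 h rfl
    obtain ⟨D, hD⟩ := bas_nonempty hPQ
    have h5 : bas P Q ∩ bas {α} ∅ = bas (P ∪ {α}) Q := by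
      rw [bas_inter, Finset.union_empty]
    rw [← h5] at hD
    exact ⟨D, h4 hD.1, hD.2⟩
  · rintro _ ⟨U, hU, hUα, rfl⟩ _ ⟨U', hU', hUα', rfl⟩
    refine ⟨U ∩ U', FF_max.inter _ hU _ hU', hUα.inter hUα', ?_⟩
    ext x
    simp only [mem_inter_iff]
    tauto

/-- the maximal open filter at the point `e α` -/
noncomputable def Fa (α : Cantor) : Set (Set NN) := (exists_Fa α).choose

theorem Fa_max (α : Cantor) : MaxF (Fa α) := (exists_Fa α).choose_spec.2

theorem mem_Fa {α : Cantor} {U : Set NN} (hU : U ∈ FF) (hUα : OA {α}ᶜ U) : U ∈ Fa α :=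
  (Fa_max α).mono ((exists_Fa α).choose_spec.1 ⟨U, hU, hUα, rfl⟩) inter_subset_left
    (FF_max.isOpen U hU)

theorem bas_mem_Fa (α : Cantor) : bas {α} ∅ ∈ Fa α := by
  have h1 : (univ : Set NN) ∈ FF :=
    FF_max.mono (bas_mem_FF ∅) (subset_univ _) OA.univ_set
  exact (Fa_max α).mono ((exists_Fa α).choose_spec.1 ⟨univ, h1, OA.univ_set, rfl⟩)
    inter_subset_right (OA.bas (subset_univ _) (subset_univ _))

/-- the space -/
inductive XX : Type
  | pt (C : NN) : XX
  | e (α : Cantor) : XX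
  | inf : XX

open XX

instance : TopologicalSpace XX where
  IsOpen U := OA univ (pt ⁻¹' U) ∧ (∀ α, e α ∈ U → pt ⁻¹' U ∈ Fa α) ∧ (inf ∈ U → pt ⁻¹' U ∈ FF)
  isOpen_univ := ⟨OA.univ_set,
    fun α _ => (Fa_max α).mono (bas_mem_Fa α) (subset_univ _) OA.univ_set,
    fun _ => FF_max.mono (bas_mem_FF ∅) (subset_univ _) OA.univ_set⟩
  isOpen_inter := by
    rintro U V ⟨h1, h2, h3⟩ ⟨h1', h2', h3'⟩
    exact ⟨h1.inter h1', fun α hα => (Fa_max α).inter _ (h2 α hα.1) _ (h2' α hα.2),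
      fun h => FF_max.inter _ (h3 h.1) _ (h3' h.2)⟩
  isOpen_sUnion := by
    intro s hs
    have h0 : OA univ (pt ⁻¹' ⋃₀ s) := by
      rintro C ⟨U, hU, hC⟩
      obtain ⟨P, Q, h1, h2, h3, h4⟩ := (hs U hU).1 C hC
      exact ⟨P, Q, h1, h2, h3, h4.trans (preimage_mono (subset_sUnion_of_mem hU))⟩
    refine ⟨h0, ?_, ?_⟩
    · rintro α ⟨U, hU, hα⟩
      exact (Fa_max α).mono ((hs U hU).2.1 α hα) (preimage_mono (subset_sUnion_of_mem hU)) h0
    · rintro ⟨U, hU, hα⟩
      exact FF_max.mono ((hs U hU).2.2 hα) (preimage_mono (subset_sUnion_of_mem hU)) h0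

theorem XX.isOpen_iff {U : Set XX} : IsOpen U ↔ OA univ (pt ⁻¹' U) ∧
    (∀ α, e α ∈ U → pt ⁻¹' U ∈ Fa α) ∧ (inf ∈ U → pt ⁻¹' U ∈ FF) := Iff.rfl

theorem pt_injective : Function.Injective pt := fun C C' h => by
  injection h

theorem isOpen_pt {G : Set NN} (hG : OA univ G) : IsOpen (pt '' G) := by
  rw [XX.isOpen_iff, preimage_image_eq _ pt_injective]
  refine ⟨hG, ?_, ?_⟩
  · rintro α ⟨C, _, hC⟩
    exact absurd hC (by simp)
  · rintro ⟨C, _, hC⟩
    exact absurd hC (by simp)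

theorem isOpen_e {α : Cantor} {G : Set NN} (hG : G ∈ Fa α) : IsOpen (insert (e α) (pt '' G)) := by
  have h1 : pt ⁻¹' (insert (e α) (pt '' G)) = G := by
    ext C
    simp [pt_injective.eq_iff]
  rw [XX.isOpen_iff, h1]
  refine ⟨(Fa_max α).isOpen G hG, ?_, ?_⟩
  · rintro β (h | ⟨C, _, hC⟩)
    · injection h with h
      rw [h]
      exact hG
    · exact absurd hC (by simp)
  · rintro (h | ⟨C, _, hC⟩)
    · exact absurd h (by simp)
    · exact absurd hC (by simp)

theorem isOpen_inf {G : Set NN} (hG : G ∈ FF) : IsOpen (insert inf (pt '' G)) := by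
  have h1 : pt ⁻¹' (insert inf (pt '' G)) = G := by
    ext C
    simp [pt_injective.eq_iff]
  rw [XX.isOpen_iff, h1]
  refine ⟨FF_max.isOpen G hG, ?_, ?_⟩
  · rintro β (h | ⟨C, _, hC⟩)
    · exact absurd h (by simp)
    · exact absurd hC (by simp)
  · rintro (h | ⟨C, _, hC⟩)
    · exact hG
    · exact absurd hC (by simp)

/-! ### Separation -/

theorem disjoint_bas (x : Cantor) : Disjoint (bas {x} ∅) (bas ∅ {x}) := by
  rw [Set.disjoint_left]
  rintro C ⟨h, _⟩ ⟨_, h'⟩
  exact h' x (Finset.mem_singleton_self x) (h x (Finset.mem_singleton_self x))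

theorem bas_singleton_mem_Fa {α x : Cantor} (h : x ≠ α) : bas ∅ {x} ∈ Fa α :=
  mem_Fa (bas_mem_FF {x}) (OA.bas (by simp) (by
    intro y hy
    simp only [Finset.coe_singleton, mem_singleton_iff] at hy
    subst hy
    exact h))

theorem oa_bas (P Q : Finset Cantor) : OA univ (bas P Q) := OA.bas (subset_univ _) (subset_univ _)

theorem mem_bas_left {C : NN} {x : Cantor} (h : x ∈ C.1) : C ∈ bas {x} ∅ :=
  ⟨by simpa using h, by simp⟩

theorem mem_bas_right {C : NN} {x : Cantor} (h : x ∉ C.1) : C ∈ bas ∅ {x} :=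
  ⟨by simp, by simpa using h⟩

/-- `Sep x y`: `x` and `y` have disjoint neighbourhoods. -/
def Sep (x y : XX) : Prop :=
  ∃ U V : Set XX, IsOpen U ∧ IsOpen V ∧ x ∈ U ∧ y ∈ V ∧ Disjoint U V

theorem Sep.symm {x y : XX} (h : Sep x y) : Sep y x := by
  obtain ⟨U, V, h1, h2, h3, h4, h5⟩ := h
  exact ⟨V, U, h2, h1, h4, h3, h5.symm⟩

theorem sep_pt {C C' : NN} (h : ∃ x, x ∈ C.1 ∧ x ∉ C'.1) : Sep (pt C) (pt C') := by
  obtain ⟨x, hx, hx'⟩ := h
  refine ⟨pt '' bas {x} ∅, pt '' bas ∅ {x}, isOpen_pt (oa_bas _ _), isOpen_pt (oa_bas _ _),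
    ⟨C, mem_bas_left hx, rfl⟩, ⟨C', mem_bas_right hx', rfl⟩, ?_⟩
  exact (disjoint_image_iff pt_injective).2 (disjoint_bas x)

theorem disjoint_insert_pt {y : XX} (hy : ∀ C, y ≠ pt C) {G G' : Set NN} (h : Disjoint G G') :
    Disjoint (pt '' G) (insert y (pt '' G')) := by
  rw [disjoint_insert_right]
  refine ⟨?_, (disjoint_image_iff pt_injective).2 h⟩
  rintro ⟨C, _, hC⟩
  exact hy C hC.symm

theorem disjoint_insert_insert {y z : XX} (hyz : y ≠ z) (hy : ∀ C, y ≠ pt C) (hz : ∀ C, z ≠ pt C)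
    {G G' : Set NN} (h : Disjoint G G') :
    Disjoint (insert z (pt '' G)) (insert y (pt '' G')) := by
  rw [disjoint_insert_left]
  refine ⟨?_, disjoint_insert_pt hy h⟩
  rintro (h1 | ⟨C, _, hC⟩)
  · exact hyz h1.symm
  · exact hz C hC.symm

theorem sep_e (C : NN) (α : Cantor) : Sep (pt C) (e α) := by
  have hinf := cantor_infinite (C.1 : Set Cantor) C.1.isClopen.isOpen C.2
  obtain ⟨x, hx, hxα⟩ := (hinf.sdiff (finite_singleton α)).nonempty
  exact ⟨pt '' bas {x} ∅, insert (e α) (pt '' bas ∅ {x}), isOpen_pt (oa_bas _ _),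
    isOpen_e (bas_singleton_mem_Fa hxα), ⟨C, mem_bas_left hx, rfl⟩, mem_insert _ _,
    disjoint_insert_pt (fun C => by simp) (disjoint_bas x)⟩

theorem sep_inf (C : NN) : Sep (pt C) inf := by
  obtain ⟨x, hx⟩ := C.2
  exact ⟨pt '' bas {x} ∅, insert inf (pt '' bas ∅ {x}), isOpen_pt (oa_bas _ _),
    isOpen_inf (bas_mem_FF _), ⟨C, mem_bas_left hx, rfl⟩, mem_insert _ _,
    disjoint_insert_pt (fun C => by simp) (disjoint_bas x)⟩

theorem sep_e_inf (α : Cantor) : Sep (e α) inf :=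
  ⟨insert (e α) (pt '' bas {α} ∅), insert inf (pt '' bas ∅ {α}), isOpen_e (bas_mem_Fa α),
    isOpen_inf (bas_mem_FF _), mem_insert _ _, mem_insert _ _,
    disjoint_insert_insert (by simp) (fun C => by simp) (fun C => by simp) (disjoint_bas α)⟩

theorem sep_e_e {α β : Cantor} (h : α ≠ β) : Sep (e α) (e β) :=
  ⟨insert (e α) (pt '' bas {α} ∅), insert (e β) (pt '' bas ∅ {α}), isOpen_e (bas_mem_Fa α),
    isOpen_e (bas_singleton_mem_Fa h), mem_insert _ _, mem_insert _ _,
    disjoint_insert_insert (by simpa using h.symm) (fun C => by simp) (fun C => by simp)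
      (disjoint_bas α)⟩

instance : T2Space XX := by
  constructor
  intro x y hxy
  show Sep x y
  cases x with
  | pt C =>
    cases y with
    | pt C' =>
      have hne : C.1 ≠ C'.1 := fun h => hxy (congrArg pt (Subtype.ext h))
      have hne' : ∃ x, ¬ (x ∈ C.1 ↔ x ∈ C'.1) := by
        by_contra hc
        push Not at hc
        exact hne (SetLike.ext hc)
      obtain ⟨x, hx⟩ := hne'
      by_cases h : x ∈ C.1
      · exact sep_pt ⟨x, h, fun h' => hx ⟨fun _ => h', fun _ => h⟩⟩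
      · have h' : x ∈ C'.1 := by
          by_contra h'
          exact hx ⟨fun a => absurd a h, fun a => absurd a h'⟩
        exact (sep_pt ⟨x, h', h⟩).symm
    | e α => exact sep_e C α
    | inf => exact sep_inf C
  | e α =>
    cases y with
    | pt C' => exact (sep_e C' α).symm
    | e β => exact sep_e_e (fun h => hxy (congrArg e h))
    | inf => exact sep_e_inf α
  | inf =>
    cases y with
    | pt C' => exact (sep_inf C').symm
    | e β => exact (sep_e_inf β).symm
    | inf => exact absurd rfl hxy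

/-! ### Quasicontinuous functions -/

theorem nonempty_pt {W : Set XX} (hW : IsOpen W) (hne : W.Nonempty) : (pt ⁻¹' W).Nonempty := by
  obtain ⟨x, hx⟩ := hne
  rw [XX.isOpen_iff] at hW
  cases x with
  | pt C => exact ⟨C, hx⟩
  | e α => exact (Fa_max α).nonempty _ (hW.2.1 α hx)
  | inf => exact FF_max.nonempty _ (hW.2.2 hx)

/-- points of `N` having a neighbourhood mapped into `V` -/
def GV (f : XX → ℝ) (V : Set ℝ) : Set NN := {C | ∃ W : Set XX, IsOpen W ∧ pt C ∈ W ∧ f '' W ⊆ V}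

theorem oa_GV (f : XX → ℝ) (V : Set ℝ) : OA univ (GV f V) := by
  rintro C ⟨W, hW, hC, hWV⟩
  obtain ⟨P, Q, h1, h2, h3, h4⟩ := hW.1 C hC
  exact ⟨P, Q, h1, h2, h3, fun D hD => ⟨W, hW, h4 hD, hWV⟩⟩

theorem GV_disjoint (f : XX → ℝ) {V V' : Set ℝ} (h : Disjoint V V') :
    GV f V ∩ GV f V' = ∅ := by
  rw [eq_empty_iff_forall_notMem]
  rintro C ⟨⟨W, _, hC, hW⟩, ⟨W', _, hC', hW'⟩⟩
  exact (Set.disjoint_left.1 h) (hW ⟨_, hC, rfl⟩) (hW' ⟨_, hC', rfl⟩)

theorem GV_mem_FF {f : XX → ℝ} (hf : Quasicontinuous f) {V : Set ℝ} (hV : IsOpen V)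
    (h : f inf ∈ V) : GV f V ∈ FF := by
  apply FF_max.max _ (oa_GV f V)
  intro U hU
  obtain ⟨W, hW, hWne, hWU, hWV⟩ := hf inf _ (isOpen_inf hU) (mem_insert _ _) V hV h
  obtain ⟨C, hC⟩ := nonempty_pt hW hWne
  refine ⟨C, ⟨W, hW, hC, hWV⟩, ?_⟩
  have := hWU hC
  simpa [pt_injective.eq_iff] using this

theorem GV_mem_Fa {f : XX → ℝ} (hf : Quasicontinuous f) {α : Cantor} {V : Set ℝ} (hV : IsOpen V)
    (h : f (e α) ∈ V) : GV f V ∈ Fa α := by
  apply (Fa_max α).max _ (oa_GV f V)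
  intro U hU
  obtain ⟨W, hW, hWne, hWU, hWV⟩ := hf (e α) _ (isOpen_e hU) (mem_insert _ _) V hV h
  obtain ⟨C, hC⟩ := nonempty_pt hW hWne
  refine ⟨C, ⟨W, hW, hC, hWV⟩, ?_⟩
  have := hWU hC
  simpa [pt_injective.eq_iff] using this

/-- **Key lemma.** -/
theorem exists_supp {f : XX → ℝ} (hf : Quasicontinuous f) : ∃ A : Set Cantor, A.Countable ∧
    ∀ α ∉ A, f (e α) = f inf := by
  choose A hA1 hA2 using fun V : Set ℝ => (oa_GV f V).exists_countable
  refine ⟨⋃ V ∈ countableBasis ℝ, A V, (countable_countableBasis ℝ).biUnion fun V _ => hA1 V, ?_⟩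
  intro α hα
  by_contra hne
  obtain ⟨u, v, hu, hv, hfu, hfv, huv⟩ := t2_separation hne
  obtain ⟨V, hV, hfV, hVv⟩ := (isBasis_countableBasis ℝ).exists_subset_of_mem_open hfv hv
  have h1 : GV f V ∈ FF := GV_mem_FF hf (isOpen_of_mem_countableBasis hV) hfV
  have h2 : GV f V ∈ Fa α := by
    apply mem_Fa h1
    apply (hA2 V).mono
    intro x hx hxα
    rw [mem_singleton_iff] at hxα
    subst hxα
    exact hα (mem_biUnion hV hx)
  have h3 : GV f u ∈ Fa α := GV_mem_Fa hf hu hfu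
  obtain ⟨C, hC⟩ := (Fa_max α).nonempty _ ((Fa_max α).inter _ h3 _ h2)
  rw [GV_disjoint f (huv.mono_right hVv)] at hC
  exact hC

/-! ### Fréchet–Urysohn -/

/-- the part of `XX` with indices in `S` -/
def Y (S : Set Cantor) : Set XX := range pt ∪ {inf} ∪ e '' S

theorem Y_countable {S : Set Cantor} (hS : S.Countable) : (Y S).Countable :=
  ((countable_range _).union (countable_singleton _)).union (hS.image _)

theorem Y_mono {S S' : Set Cantor} (h : S ⊆ S') : Y S ⊆ Y S' :=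
  union_subset_union_right _ (image_mono h)

theorem notMem_Y {S : Set Cantor} {x : XX} (hx : x ∉ Y S) : ∃ α, α ∉ S ∧ x = e α := by
  cases x with
  | pt C => exact absurd (Or.inl (Or.inl ⟨C, rfl⟩)) hx
  | e α => exact ⟨α, fun h => hx (Or.inr ⟨α, h, rfl⟩), rfl⟩
  | inf => exact absurd (Or.inl (Or.inr rfl)) hx

theorem exists_approx {A : Set (Qp XX)} {f : Qp XX} (hf : f ∈ closure A) (T : Finset XX)
    {ε : ℝ} (hε : 0 < ε) : ∃ a ∈ A, ∀ x ∈ T, |a.1 x - f.1 x| < ε := by
  have ho : IsOpen (⋂ x ∈ T, {g : Qp XX | |g.1 x - f.1 x| < ε}) := by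
    apply isOpen_biInter_finset
    intro x _
    exact isOpen_lt ((((continuous_apply x).comp continuous_subtype_val).sub
      continuous_const).abs) continuous_const
  obtain ⟨a, ha, haA⟩ := mem_closure_iff.1 hf _ ho (by
    simp only [mem_iInter]
    intro x _
    show |f.1 x - f.1 x| < ε
    simpa using hε)
  refine ⟨a, haA, fun x hx => ?_⟩
  simp only [mem_iInter] at ha
  exact ha x hx

instance : FrechetUrysohnSpace (Qp XX) := by
  classical
  constructor
  intro A f hf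
  choose a haA ha using fun (T : Finset XX) (m : ℕ) =>
    exists_approx hf T (show (0 : ℝ) < 1 / ((m : ℝ) + 1) by positivity)
  choose supp hs1 hs2 using fun g : Qp XX => exists_supp g.2
  let S : ℕ → Set Cantor := fun k => Nat.rec (supp f)
    (fun _ S => S ∪ ⋃ (T : {T : Finset XX // (T : Set XX) ⊆ Y S}) (m : ℕ), supp (a T.1 m)) k
  have hS0 : S 0 = supp f := rfl
  have hSs : ∀ k, S (k + 1) = S k ∪ ⋃ (T : {T : Finset XX // (T : Set XX) ⊆ Y (S k)}) (m : ℕ),
      supp (a T.1 m) := fun k => rfl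
  have hSc : ∀ k, (S k).Countable := by
    intro k
    induction k with
    | zero => rw [hS0]; exact hs1 f
    | succ k ih =>
      rw [hSs]
      haveI : Countable {T : Finset XX // (T : Set XX) ⊆ Y (S k)} := by
        have h1 : (Y (S k)).Countable := Y_countable ih
        haveI : Countable (Y (S k)) := h1.to_subtype
        let φ : {T : Finset XX // (T : Set XX) ⊆ Y (S k)} → Finset (Y (S k)) :=
          fun T => T.1.subtype (fun x => x ∈ Y (S k))
        have hφ : Function.Injective φ := by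
          intro T T' h
          apply Subtype.ext
          ext x
          have h2 : ∀ T : {T : Finset XX // (T : Set XX) ⊆ Y (S k)}, x ∈ T.1 ↔
              ∃ hx : x ∈ Y (S k), (⟨x, hx⟩ : Y (S k)) ∈ φ T := by
            intro T
            constructor
            · intro hx
              exact ⟨T.2 hx, Finset.mem_subtype.2 hx⟩
            · rintro ⟨hx, hx'⟩
              exact Finset.mem_subtype.1 hx'
          rw [h2 T, h2 T', h]
        exact hφ.countable
      exact ih.union (countable_iUnion fun T => countable_iUnion fun m => hs1 _)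
  have hSm : Monotone S := monotone_nat_of_le_succ fun k => by
    rw [hSs]
    exact subset_union_left
  let Sω : Set Cantor := ⋃ k, S k
  have hSωc : Sω.Countable := countable_iUnion hSc
  have hYne : (Y Sω).Nonempty := ⟨inf, Or.inl (Or.inr rfl)⟩
  obtain ⟨s, hs⟩ := (Y_countable hSωc).exists_eq_range hYne
  let T : ℕ → Finset XX := fun n => (Finset.range (n + 1)).image s
  have hTY : ∀ n, ∃ k, (T n : Set XX) ⊆ Y (S k) := by
    intro n
    have h1 : ∀ x ∈ Y Sω, ∃ k, x ∈ Y (S k) := by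
      rintro x ((hx | hx) | ⟨α, hα, rfl⟩)
      · exact ⟨0, Or.inl (Or.inl hx)⟩
      · exact ⟨0, Or.inl (Or.inr hx)⟩
      · obtain ⟨k, hk⟩ := mem_iUnion.1 hα
        exact ⟨k, Or.inr ⟨α, hk, rfl⟩⟩
    choose! κ hκ using h1
    refine ⟨(T n).sup κ, fun x hx => ?_⟩
    have hxY : x ∈ Y Sω := by
      obtain ⟨i, _, rfl⟩ := Finset.mem_image.1 (Finset.mem_coe.1 hx)
      rw [hs]
      exact ⟨i, rfl⟩
    exact Y_mono (hSm (Finset.le_sup hx)) (hκ x hxY)
  have hsupp : ∀ n, supp (a (T n) n) ⊆ Sω := by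
    intro n
    obtain ⟨k, hk⟩ := hTY n
    refine Subset.trans ?_ (subset_iUnion S (k + 1))
    rw [hSs]
    refine Subset.trans ?_ subset_union_right
    exact subset_iUnion_of_subset ⟨T n, hk⟩ (subset_iUnion_of_subset n Subset.rfl)
  refine ⟨fun n => a (T n) n, fun n => haA _ _, ?_⟩
  rw [tendsto_subtype_rng, tendsto_pi_nhds]
  have hmain : ∀ x ∈ Y Sω, Tendsto (fun n => (a (T n) n).1 x) atTop (𝓝 (f.1 x)) := by
    intro x hx
    rw [hs] at hx
    obtain ⟨i, rfl⟩ := hx
    rw [tendsto_iff_dist_tendsto_zero]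
    refine squeeze_zero' (Eventually.of_forall fun n => dist_nonneg) ?_
      tendsto_one_div_add_atTop_nhds_zero_nat
    filter_upwards [eventually_ge_atTop i] with n hn
    rw [Real.dist_eq]
    exact (ha (T n) n (s i) (Finset.mem_image.2 ⟨i, Finset.mem_range.2 (by omega), rfl⟩)).le
  intro x
  by_cases hx : x ∈ Y Sω
  · exact hmain x hx
  · obtain ⟨α, hα, rfl⟩ := notMem_Y hx
    have h1 : f.1 (e α) = f.1 inf := hs2 f α fun h => hα (mem_iUnion.2 ⟨0, h⟩)
    have h2 : ∀ n, (a (T n) n).1 (e α) = (a (T n) n).1 inf := fun n =>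
      hs2 _ α fun h => hα (hsupp n h)
    rw [h1]
    simp only [h2]
    exact hmain inf (Or.inl (Or.inr rfl))

/-- **There is a non-Lusin uncountable Hausdorff space with Fréchet–Urysohn `Q_p`.** -/
theorem result : ∃ (X : Type) (_ : TopologicalSpace X), T2Space X ∧ FrechetUrysohnSpace (Qp X) ∧
    ¬ Countable X ∧ ¬ IsLusin X ∧ ∃ E : Set X, IsNowhereDense E ∧ ¬ E.Countable := by
  have hE : ¬ (range e).Countable := by
    intro h
    have h1 : (univ : Set Cantor).Countable := by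
      rw [← image_univ] at h
      exact countable_of_injective_of_countable_image (f := e)
        (fun a _ b _ hab => by injection hab) h
    haveI : Countable Cantor := countable_univ_iff.1 h1
    obtain ⟨g, hg⟩ := exists_surjective_nat Cantor
    obtain ⟨n, hn⟩ := hg (fun n => !(g n n))
    have h2 := congrFun hn n
    revert h2
    cases g n n <;> simp
  have hnd : IsNowhereDense (range e) := by
    have h1 : closure (range e) ⊆ (range pt)ᶜ := by
      apply closure_minimal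
      · rintro _ ⟨α, rfl⟩ ⟨C, hC⟩
        exact absurd hC (by simp)
      · have := isOpen_pt (OA.univ_set (A := univ))
        rw [image_univ] at this
        exact this.isClosed_compl
    show interior (closure (range e)) = ∅
    by_contra hne
    obtain ⟨C, hC⟩ := nonempty_pt isOpen_interior (nonempty_iff_ne_empty.2 hne)
    exact h1 (interior_subset hC) ⟨C, rfl⟩
  refine ⟨XX, inferInstance, inferInstance, inferInstance, ?_, ?_, range e, hnd, hE⟩
  · intro h
    exact hE (to_countable _)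
  · rintro ⟨h, -, -⟩
    exact hE (h _ hnd)

end Pool.Agent.Results.MP_aa6101_gt.NotLusin
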